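import Pool.Agent.Helper86.Poly.Goals

/-! # Packet HULL of MP_cd13d2_co: a net of the unit sphere has a large convex hull -/

set_option autoImplicit false

namespace Pool.Agent.Helper83.Poly

open Pool.Agent.Helper86.Poly

theorem PkHULL.thm : G_HULL := by
  intro d X δ hd hδ hδ1 hX hnet z hz
  by_contra hzn
  have hzn' : ‖z‖ ≤ 1 - δ ^ 2 / 2 := by
    simpa [Metric.mem_closedBall, dist_zero_right] using hz
  have hcl : IsClosed (convexHull ℝ (X : Set (E d))) :=
    (X.finite_toSet.isCompact_convexHull ℝ).isClosed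
  obtain ⟨f, u, hfu, huz⟩ :=
    geometric_hahn_banach_closed_point (convex_convexHull ℝ (X : Set (E d))) hcl hzn
  set w : E d := (InnerProductSpace.toDual ℝ (E d)).symm f with hw
  have hfw : ∀ x, f x = inner ℝ w x := by
    intro x
    rw [hw, InnerProductSpace.toDual_symm_apply]
  -- a unit vector
  have hdpos : 0 < d := hd
  let e : E d := EuclideanSpace.single (⟨0, hdpos⟩ : Fin d) (1 : ℝ)
  have he : ‖e‖ = 1 := by simp [e]
  obtain ⟨x₀, hx₀, -⟩ := hnet e he
  have hx₀h : x₀ ∈ convexHull ℝ (X : Set (E d)) := subset_convexHull ℝ _ (by exact_mod_cast hx₀)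
  have hw0 : w ≠ 0 := by
    intro h0
    have h1 := hfu x₀ hx₀h
    rw [hfw, h0] at h1
    rw [hfw, h0] at huz
    simp at h1 huz
    linarith
  have hwn : 0 < ‖w‖ := norm_pos_iff.mpr hw0
  set v : E d := ‖w‖⁻¹ • w with hv
  have hvn : ‖v‖ = 1 := by
    rw [hv, norm_smul, norm_inv, norm_norm]
    exact inv_mul_cancel₀ hwn.ne'
  obtain ⟨x, hx, hxd⟩ := hnet v hvn
  have hxh : x ∈ convexHull ℝ (X : Set (E d)) := subset_convexHull ℝ _ (by exact_mod_cast hx)
  have hin : 1 - δ ^ 2 / 2 ≤ inner ℝ v x := by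
    have h1 : ‖v - x‖ ^ 2 = ‖v‖ ^ 2 - 2 * inner ℝ v x + ‖x‖ ^ 2 := norm_sub_sq_real v x
    rw [hvn, hX x hx] at h1
    have h2 : ‖v - x‖ ≤ δ := by rwa [dist_eq_norm] at hxd
    have h3 : ‖v - x‖ ^ 2 ≤ δ ^ 2 := by
      have := norm_nonneg (v - x)
      nlinarith
    linarith
  have hwv : w = ‖w‖ • v := by
    rw [hv, smul_smul, mul_inv_cancel₀ hwn.ne', one_smul]
  have hfx : ‖w‖ * (1 - δ ^ 2 / 2) ≤ f x := by
    have h4 : f x = ‖w‖ * inner ℝ v x := by
      rw [hfw]
      conv_lhs => rw [hwv]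
      rw [real_inner_smul_left]
    rw [h4]
    exact mul_le_mul_of_nonneg_left hin hwn.le
  have hfz : f z ≤ ‖w‖ * (1 - δ ^ 2 / 2) := by
    rw [hfw]
    exact (real_inner_le_norm w z).trans (mul_le_mul_of_nonneg_left hzn' hwn.le)
  have := hfu x hxh
  linarith

end Pool.Agent.Helper83.Poly
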